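import Mathlib
import Pool.Agent.Helper37.Count

open Pool.Agent.Helper37

namespace Pool.Agent.Results.MP_75af91_ag.FrobergLundqvist

/-! ### The definitions of the statement -/

/-- The bidegrees of the variables `s, t, u, v` (numbered `0, 1, 2, 3`). -/
def bideg : Fin 4 → ℕ × ℕ := ![(1, 0), (1, 0), (0, 1), (0, 1)]

/-- `R_a`, the space of bihomogeneous polynomials of bidegree `a` in `K[s,t;u,v]`. -/
noncomputable def Rdeg (K : Type*) [Field K] (a : ℕ × ℕ) :
    Submodule K (MvPolynomial (Fin 4) K) :=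
  MvPolynomial.weightedHomogeneousSubmodule K bideg a

/-- The exponent vector of the monomial `s^p t^(d.1-p) u^q v^(d.2-q)`. -/
noncomputable def expt (d : ℕ × ℕ) (p q : ℕ) : Fin 4 →₀ ℕ :=
  Finsupp.equivFunOnFinite.symm ![p, d.1 - p, q, d.2 - q]

/-- The coordinates of a triple in `R_d ^ 3`: its `3 (d.1 + 1) (d.2 + 1)` coefficients. -/
noncomputable def coords {K : Type*} [Field K] {d : ℕ × ℕ} (f : Fin 3 → Rdeg K d) :
    Fin 3 × Fin (d.1 + 1) × Fin (d.2 + 1) → K :=
  fun j => MvPolynomial.coeff (expt d j.2.1 j.2.2) (f j.1 : MvPolynomial (Fin 4) K)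

/-- Zariski open subsets of the coefficient space `R_d ^ 3`: unions of nonvanishing sets of
polynomials in the coefficients. -/
def IsZariskiOpen {K : Type*} [Field K] {d : ℕ × ℕ} (U : Set (Fin 3 → Rdeg K d)) : Prop :=
  ∃ S : Set (MvPolynomial (Fin 3 × Fin (d.1 + 1) × Fin (d.2 + 1)) K),
    U = {f | ∃ p ∈ S, MvPolynomial.eval (coords f) p ≠ 0}

/-- The ideal `⟨f₀, f₁, f₂⟩`. -/
noncomputable def idealOf {K : Type*} [Field K] {d : ℕ × ℕ} (f : Fin 3 → Rdeg K d) :
    Ideal (MvPolynomial (Fin 4) K) :=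
  Ideal.span (Set.range fun i => (f i : MvPolynomial (Fin 4) K))

/-- The dimension of `(R / ⟨f₀, f₁, f₂⟩)_a`, the image of `R_a` in the quotient ring. -/
noncomputable def hilb {K : Type*} [Field K] {d : ℕ × ℕ} (f : Fin 3 → Rdeg K d)
    (a : ℕ × ℕ) : ℕ :=
  Module.finrank K ((Rdeg K a).map (Ideal.Quotient.mkₐ K (idealOf f)).toLinearMap)

/-- `dim R_a` for `a ∈ ℤ²`. -/
def dimR (a : ℤ × ℤ) : ℤ := if 0 ≤ a.1 ∧ 0 ≤ a.2 then (a.1 + 1) * (a.2 + 1) else 0

/-- The Euler characteristic of the Koszul complex of three forms of bidegree `d`, in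
bidegree `a`. -/
def chi (d a : ℤ × ℤ) : ℤ :=
  dimR a - 3 * dimR (a - d) + 3 * dimR (a - 2 • d) - dimR (a - 3 • d)

/-! ### Forms in coordinates -/

section Forms

variable {K : Type*} [Field K]

lemma weight_eq (m : Fin 4 →₀ ℕ) : Finsupp.weight bideg m = (m 0 + m 1, m 2 + m 3) := by
  rw [Finsupp.weight_apply, Finsupp.sum_fintype _ _ (by simp), Fin.sum_univ_four]
  simp [bideg]

lemma weight_expt {a : ℕ × ℕ} {p q : ℕ} (hp : p ≤ a.1) (hq : q ≤ a.2) :
    Finsupp.weight bideg (expt a p q) = a := by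
  rw [weight_eq]
  unfold expt
  simp only [Finsupp.equivFunOnFinite_symm_apply_apply, Matrix.cons_val_zero, Matrix.cons_val_one,
    Matrix.cons_val]
  exact Prod.ext (by simp only; omega) (by simp only; omega)

lemma expt_eq {a : ℕ × ℕ} {m : Fin 4 →₀ ℕ} (h : Finsupp.weight bideg m = a) :
    expt a (m 0) (m 2) = m := by
  rw [weight_eq] at h
  have h1 : m 0 + m 1 = a.1 := by rw [← h]
  have h2 : m 2 + m 3 = a.2 := by rw [← h]
  ext i
  unfold expt
  rw [Finsupp.equivFunOnFinite_symm_apply_apply]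
  fin_cases i
  · rfl
  · simp only [Matrix.cons_val_one, Fin.mk_one, Matrix.cons_val_zero]; omega
  · rfl
  · change a.2 - m 2 = m 3
    omega

/-- The form with given coefficients. -/
noncomputable def phi (K : Type*) [Field K] (a : ℕ × ℕ) :
    (Fin (a.1 + 1) × Fin (a.2 + 1) → K) →ₗ[K] MvPolynomial (Fin 4) K where
  toFun v := ∑ w, MvPolynomial.monomial (expt a w.1 w.2) (v w)
  map_add' v w := by
    rw [← Finset.sum_add_distrib]
    exact Finset.sum_congr rfl (fun i _ => by rw [Pi.add_apply, map_add])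
  map_smul' c v := by
    rw [RingHom.id_apply, Finset.smul_sum]
    exact Finset.sum_congr rfl (fun i _ => by
      rw [Pi.smul_apply, MvPolynomial.smul_monomial])

lemma phi_apply (a : ℕ × ℕ) (v : Fin (a.1 + 1) × Fin (a.2 + 1) → K) :
    phi K a v = ∑ w, MvPolynomial.monomial (expt a w.1 w.2) (v w) := rfl

lemma phi_mem (a : ℕ × ℕ) (v : Fin (a.1 + 1) × Fin (a.2 + 1) → K) : phi K a v ∈ Rdeg K a := by
  rw [phi_apply]
  refine Submodule.sum_mem _ (fun w _ => ?_)
  refine MvPolynomial.isWeightedHomogeneous_monomial _ _ _ ?_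
  exact weight_expt (by omega) (by omega)

lemma expt_inj {a : ℕ × ℕ} {p q p' q' : ℕ} (h : expt a p q = expt a p' q') : p = p' ∧ q = q' := by
  have h0 := DFunLike.congr_fun h 0
  have h2 := DFunLike.congr_fun h 2
  exact ⟨h0, h2⟩

lemma coeff_phi (a : ℕ × ℕ) (v : Fin (a.1 + 1) × Fin (a.2 + 1) → K)
    (w : Fin (a.1 + 1) × Fin (a.2 + 1)) :
    MvPolynomial.coeff (expt a w.1 w.2) (phi K a v) = v w := by
  classical
  rw [phi_apply, MvPolynomial.coeff_sum, Finset.sum_eq_single_of_mem w (Finset.mem_univ w)]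
  · rw [MvPolynomial.coeff_monomial, if_pos rfl]
  · intro w' _ hw'
    rw [MvPolynomial.coeff_monomial, if_neg]
    intro h
    obtain ⟨h1, h2⟩ := expt_inj h
    exact hw' (Prod.ext (Fin.ext h1) (Fin.ext h2))

lemma eq_phi {a : ℕ × ℕ} {P : MvPolynomial (Fin 4) K} (hP : P ∈ Rdeg K a) :
    phi K a (fun w => MvPolynomial.coeff (expt a w.1 w.2) P) = P := by
  classical
  ext m
  by_cases hm : Finsupp.weight bideg m = a
  · have h1 := hm
    rw [weight_eq] at h1
    have h2 : m 0 + m 1 = a.1 := by rw [← h1]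
    have h3 : m 2 + m 3 = a.2 := by rw [← h1]
    have h4 := coeff_phi a (fun w => MvPolynomial.coeff (expt a w.1 w.2) P)
      (⟨m 0, by omega⟩, ⟨m 2, by omega⟩)
    simp only [expt_eq hm] at h4
    exact h4
  · have h1 : MvPolynomial.coeff m P = 0 := by
      by_contra h
      exact hm (hP h)
    have h2 : MvPolynomial.coeff m (phi K a (fun w => MvPolynomial.coeff (expt a w.1 w.2) P))
        = 0 := by
      by_contra h
      exact hm (phi_mem a _ h)
    rw [h1, h2]

end Forms

/-! ### Dehomogenisation -/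

section Bridge

variable {K : Type*} [Field K]

/-- Dehomogenisation: `t = v = 1`. -/
noncomputable def dehom (K : Type*) [Field K] :
    MvPolynomial (Fin 4) K →ₐ[K] Polynomial (Polynomial K) :=
  MvPolynomial.aeval ![Polynomial.X, 1, Polynomial.C Polynomial.X, 1]

lemma dehom_monomial (m : Fin 4 →₀ ℕ) (c : K) :
    dehom K (MvPolynomial.monomial m c)
      = Polynomial.monomial (m 0) (Polynomial.monomial (m 2) c) := by
  unfold dehom
  rw [MvPolynomial.aeval_monomial, Finsupp.prod_fintype _ _ (by simp), Fin.prod_univ_four]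
  simp only [Matrix.cons_val_zero, Matrix.cons_val_one, Matrix.cons_val, one_pow, mul_one]
  rw [← Polynomial.C_mul_X_pow_eq_monomial, ← Polynomial.C_mul_X_pow_eq_monomial,
    Polynomial.C_mul, Polynomial.C_pow]
  have : algebraMap K (Polynomial (Polynomial K)) c = Polynomial.C (Polynomial.C c) := rfl
  rw [this]
  ring

lemma dehom_phi (a : ℕ × ℕ) (v : Fin (a.1 + 1) × Fin (a.2 + 1) → K) :
    dehom K (phi K a v) = toB K (a.1 + 1) (a.2 + 1) v := by
  apply cc_ext
  intro p z
  rw [phi_apply, map_sum, cc_sum]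
  have h : ∀ w : Fin (a.1 + 1) × Fin (a.2 + 1),
      cc (dehom K (MvPolynomial.monomial (expt a w.1 w.2) (v w))) p z
      = if (w.1 : ℕ) = p ∧ (w.2 : ℕ) = z then v w else 0 := by
    intro w
    rw [dehom_monomial]
    have e0 : expt a w.1 w.2 0 = w.1 := rfl
    have e2 : expt a w.1 w.2 2 = w.2 := rfl
    rw [e0, e2]
    unfold cc
    rw [Polynomial.coeff_monomial]
    by_cases h1 : (w.1 : ℕ) = p
    · rw [if_pos h1, Polynomial.coeff_monomial]
      by_cases h2 : (w.2 : ℕ) = z
      · rw [if_pos h2, if_pos ⟨h1, h2⟩]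
      · rw [if_neg h2, if_neg (by tauto)]
    · rw [if_neg h1, Polynomial.coeff_zero, if_neg (by tauto)]
  simp_rw [h]
  by_cases hpz : p < a.1 + 1 ∧ z < a.2 + 1
  · rw [Finset.sum_eq_single_of_mem (⟨p, hpz.1⟩, ⟨z, hpz.2⟩) (Finset.mem_univ _)]
    · rw [if_pos ⟨rfl, rfl⟩]
      exact (cc_toB _ _ v (⟨p, hpz.1⟩, ⟨z, hpz.2⟩)).symm
    · intro w _ hw
      rw [if_neg]
      rintro ⟨h1, h2⟩
      exact hw (Prod.ext (Fin.ext h1) (Fin.ext h2))
  · rw [toB_mem _ _ v p z (by omega)]
    refine Finset.sum_eq_zero (fun w _ => ?_)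
    rw [if_neg]
    rintro ⟨h1, h2⟩
    have := w.1.2
    have := w.2.2
    omega

lemma dehom_eq_fc {d : ℕ × ℕ} (f : Fin 3 → Rdeg K d) (i : Fin 3) :
    dehom K (f i : MvPolynomial (Fin 4) K) = fc (coords f) i := by
  conv_lhs => rw [← eq_phi (f i).2]
  rw [dehom_phi]
  rfl

lemma dehom_mem {a : ℕ × ℕ} {P : MvPolynomial (Fin 4) K} (hP : P ∈ Rdeg K a) :
    dehom K P ∈ BB K (a.1 + 1) (a.2 + 1) := by
  rw [← eq_phi hP, dehom_phi]
  exact toB_mem _ _ _

lemma dehom_inj {a : ℕ × ℕ} {P : MvPolynomial (Fin 4) K} (hP : P ∈ Rdeg K a)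
    (h : dehom K P = 0) : P = 0 := by
  rw [← eq_phi hP, dehom_phi] at h
  rw [← eq_phi hP, toB_eq_zero h, map_zero]

/-! ### Graded pieces of the ideal -/

lemma comp_mul {a d : ℕ × ℕ} {f : MvPolynomial (Fin 4) K} (hf : f ∈ Rdeg K d)
    (g : MvPolynomial (Fin 4) K) :
    MvPolynomial.weightedHomogeneousComponent bideg (a + d) (g * f)
      = MvPolynomial.weightedHomogeneousComponent bideg a g * f := by
  classical
  induction g using MvPolynomial.induction_on' with
  | monomial m c =>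
    have h1 : MvPolynomial.IsWeightedHomogeneous bideg (MvPolynomial.monomial m c)
        (Finsupp.weight bideg m) := MvPolynomial.isWeightedHomogeneous_monomial _ _ _ rfl
    have h2 : MvPolynomial.IsWeightedHomogeneous bideg (MvPolynomial.monomial m c * f)
        (Finsupp.weight bideg m + d) := h1.mul hf
    by_cases h : Finsupp.weight bideg m = a
    · rw [← h, h2.weightedHomogeneousComponent_same, h1.weightedHomogeneousComponent_same]
    · rw [h2.weightedHomogeneousComponent_ne _ (fun h3 => h (add_right_cancel h3).symm),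
        h1.weightedHomogeneousComponent_ne _ (fun h3 => h h3.symm), zero_mul]
  | add p q hp hq => rw [add_mul, map_add, map_add, add_mul, hp, hq]

lemma comp_mul_zero {a d : ℕ × ℕ} {f : MvPolynomial (Fin 4) K} (hf : f ∈ Rdeg K d)
    (had : ∀ b, b + d ≠ a) (g : MvPolynomial (Fin 4) K) :
    MvPolynomial.weightedHomogeneousComponent bideg a (g * f) = 0 := by
  classical
  induction g using MvPolynomial.induction_on' with
  | monomial m c =>
    have h1 : MvPolynomial.IsWeightedHomogeneous bideg (MvPolynomial.monomial m c)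
        (Finsupp.weight bideg m) := MvPolynomial.isWeightedHomogeneous_monomial _ _ _ rfl
    have h2 : MvPolynomial.IsWeightedHomogeneous bideg (MvPolynomial.monomial m c * f)
        (Finsupp.weight bideg m + d) := h1.mul hf
    exact h2.weightedHomogeneousComponent_ne _ (fun h3 => had _ h3.symm)
  | add p q hp hq => rw [add_mul, map_add, hp, hq, add_zero]

lemma mem_iff {d : ℕ × ℕ} (f : Fin 3 → Rdeg K d) (a : ℕ × ℕ)
    (v : Fin (a.1 + 1) × Fin (a.2 + 1) → K) :
    phi K a v ∈ idealOf f ↔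
      toB K (a.1 + 1) (a.2 + 1) v ∈ Im (fc (coords f)) (a.1 + 1 - d.1) (a.2 + 1 - d.2) := by
  by_cases had : d.1 ≤ a.1 ∧ d.2 ≤ a.2
  · obtain ⟨b, hb⟩ : ∃ b : ℕ × ℕ, a = b + d := ⟨(a.1 - d.1, a.2 - d.2),
      Prod.ext (by simp only [Prod.fst_add]; omega) (by simp only [Prod.snd_add]; omega)⟩
    have hb1 : a.1 + 1 - d.1 = b.1 + 1 := by rw [hb, Prod.fst_add]; omega
    have hb2 : a.2 + 1 - d.2 = b.2 + 1 := by rw [hb, Prod.snd_add]; omega
    rw [hb1, hb2, mem_Im]
    constructor
    · intro h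
      unfold idealOf at h
      rw [Ideal.mem_span_range_iff_exists_fun] at h
      obtain ⟨g, hg⟩ := h
      refine ⟨fun i => dehom K (MvPolynomial.weightedHomogeneousComponent bideg b (g i)),
        fun i => dehom_mem (MvPolynomial.weightedHomogeneousComponent_mem _ _ _), ?_⟩
      have h1 := congrArg (MvPolynomial.weightedHomogeneousComponent bideg a) hg
      have h2 : MvPolynomial.IsWeightedHomogeneous bideg (phi K a v) a := phi_mem a v
      rw [h2.weightedHomogeneousComponent_same, map_sum] at h1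
      rw [← dehom_phi, ← h1, map_sum]
      refine Finset.sum_congr rfl (fun i _ => ?_)
      have h3 := comp_mul (a := b) (f i).2 (g i)
      rw [← hb] at h3
      rw [h3, map_mul, dehom_eq_fc, mul_comm]
    · rintro ⟨G, hG, hsum⟩
      have h1 : phi K a v = ∑ i, phi K b (coB K (b.1 + 1) (b.2 + 1) (G i))
          * (f i : MvPolynomial (Fin 4) K) := by
        rw [← sub_eq_zero]
        refine dehom_inj (a := a) (Submodule.sub_mem _ (phi_mem a v)
          (Submodule.sum_mem _ (fun i _ => ?_))) ?_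
        · have h2 : MvPolynomial.IsWeightedHomogeneous bideg
              (phi K b (coB K (b.1 + 1) (b.2 + 1) (G i)) * (f i : MvPolynomial (Fin 4) K))
              (b + d) := MvPolynomial.IsWeightedHomogeneous.mul (phi_mem b _) (f i).2
          rw [← hb] at h2
          exact h2
        · rw [map_sub, dehom_phi, map_sum, ← hsum, sub_eq_zero]
          refine Finset.sum_congr rfl (fun i _ => ?_)
          rw [map_mul, dehom_phi, dehom_eq_fc, toB_coB (hG i), mul_comm]
      rw [h1]
      refine Ideal.sum_mem _ (fun i _ => Ideal.mul_mem_left _ _ ?_)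
      exact Ideal.subset_span ⟨i, rfl⟩
  · have hIm : ∀ P ∈ Im (fc (coords f)) (a.1 + 1 - d.1) (a.2 + 1 - d.2), P = 0 := by
      intro P hP
      rw [mem_Im] at hP
      obtain ⟨g, hg, rfl⟩ := hP
      refine Finset.sum_eq_zero (fun i _ => ?_)
      have : g i = 0 := by
        apply cc_ext
        intro p z
        rw [cc_zero]
        exact hg i p z (by omega)
      rw [this, mul_zero]
    constructor
    · intro h
      unfold idealOf at h
      rw [Ideal.mem_span_range_iff_exists_fun] at h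
      obtain ⟨g, hg⟩ := h
      have h1 := congrArg (MvPolynomial.weightedHomogeneousComponent bideg a) hg
      have h2 : MvPolynomial.IsWeightedHomogeneous bideg (phi K a v) a := phi_mem a v
      rw [h2.weightedHomogeneousComponent_same, map_sum] at h1
      have h3 : phi K a v = 0 := by
        rw [← h1]
        refine Finset.sum_eq_zero (fun i _ => comp_mul_zero (f i).2 (fun b hb => had ?_) _)
        rw [← hb, Prod.fst_add, Prod.snd_add]
        omega
      rw [← dehom_phi, h3, map_zero]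
      exact Submodule.zero_mem _
    · intro h
      rw [toB_eq_zero (hIm _ h), map_zero]
      exact Ideal.zero_mem _

lemma range_phi (a : ℕ × ℕ) : LinearMap.range (phi K a) = Rdeg K a := by
  ext P
  constructor
  · rintro ⟨v, rfl⟩
    exact phi_mem a v
  · intro hP
    exact ⟨_, eq_phi hP⟩

theorem hilb_eq {d : ℕ × ℕ} (f : Fin 3 → Rdeg K d) (a : ℕ × ℕ) :
    hilb f a + Module.finrank K (Im (fc (coords f)) (a.1 + 1 - d.1) (a.2 + 1 - d.2))
      = (a.1 + 1) * (a.2 + 1) := by
  let q : (Fin (a.1 + 1) × Fin (a.2 + 1) → K) →ₗ[K] MvPolynomial (Fin 4) K ⧸ idealOf f :=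
    (Ideal.Quotient.mkₐ K (idealOf f)).toLinearMap.comp (phi K a)
  have h1 := LinearMap.finrank_range_add_finrank_ker q
  have h2 : LinearMap.range q
      = (Rdeg K a).map (Ideal.Quotient.mkₐ K (idealOf f)).toLinearMap := by
    rw [← range_phi]
    exact LinearMap.range_comp _ _
  have h3 : (LinearMap.ker q).map (toB K (a.1 + 1) (a.2 + 1))
      = Im (fc (coords f)) (a.1 + 1 - d.1) (a.2 + 1 - d.2) := by
    have hq : ∀ v, v ∈ LinearMap.ker q ↔ phi K a v ∈ idealOf f := by
      intro v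
      rw [LinearMap.mem_ker]
      exact Ideal.Quotient.eq_zero_iff_mem
    ext P
    constructor
    · rintro ⟨v, hv, rfl⟩
      exact (mem_iff f a v).1 ((hq v).1 hv)
    · intro hP
      have hPB : P ∈ BB K (a.1 + 1) (a.2 + 1) := by
        have hP' := hP
        rw [mem_Im] at hP'
        obtain ⟨g, hg, rfl⟩ := hP'
        refine Submodule.sum_mem _ (fun i _ => ?_)
        by_cases had : d.1 ≤ a.1 ∧ d.2 ≤ a.2
        · have h4 := mul_mem_BB (fc_mem (coords f) i) (hg i)
          exact BB_mono (by omega) (by omega) h4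
        · have : g i = 0 := by
            apply cc_ext
            intro p z
            rw [cc_zero]
            exact hg i p z (by omega)
          rw [this, mul_zero]
          exact Submodule.zero_mem _
      refine ⟨coB K (a.1 + 1) (a.2 + 1) P, ?_, toB_coB hPB⟩
      rw [SetLike.mem_coe, hq, mem_iff, toB_coB hPB]
      exact hP
  have hinj : Function.Injective (toB K (a.1 + 1) (a.2 + 1)) := by
    refine (injective_iff_map_eq_zero _).2 (fun v hv => toB_eq_zero hv)
  have h4 := (Submodule.equivMapOfInjective _ hinj (LinearMap.ker q)).finrank_eq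
  rw [h3] at h4
  rw [h2, h4] at h1
  unfold hilb
  rw [h1]
  simp

end Bridge

/-- **The Fröberg–Lundqvist conjecture for three forms on `P¹ × P¹`.** -/
theorem result (K : Type*) [Field K] [Infinite K] (d₁ d₂ : ℕ) (hd₁ : 1 ≤ d₁) (hd₂ : 1 ≤ d₂) :
    ∃ U : Set (Fin 3 → Rdeg K (d₁, d₂)), IsZariskiOpen U ∧ U.Nonempty ∧
      ∀ f ∈ U, ∀ a₁ a₂ : ℕ, (hilb f (a₁, a₂) : ℤ) = max (chi (d₁, d₂) (a₁, a₂)) 0 := by
  obtain ⟨p, hp, h⟩ := big_all K d₁ d₂ hd₁ hd₂
  refine ⟨{f | ∃ q ∈ ({p} : Set _), MvPolynomial.eval (coords f) q ≠ 0}, ⟨{p}, rfl⟩, ?_, ?_⟩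
  · obtain ⟨c, hc⟩ : ∃ c, MvPolynomial.eval c p ≠ 0 := by
      by_contra hcon
      push Not at hcon
      exact hp (MvPolynomial.funext (fun c => by rw [hcon c, map_zero]))
    refine ⟨fun i => ⟨phi K (d₁, d₂) (fun w => c (i, w)), phi_mem _ _⟩, p, rfl, ?_⟩
    have : coords (fun i => (⟨phi K (d₁, d₂) (fun w => c (i, w)), phi_mem _ _⟩ :
        Rdeg K (d₁, d₂))) = c := by
      funext j
      exact coeff_phi (d₁, d₂) (fun w => c (j.1, w)) j.2
    rw [this]
    exact hc
  · rintro f ⟨q, hq, hf⟩ a₁ a₂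
    rw [Set.mem_singleton_iff] at hq
    rw [hq] at hf
    have h1 := h (coords f) hf a₁ a₂
    have h2 := hilb_eq f (a₁, a₂)
    simp only at h2
    have h3 : ((a₁ : ℤ) + 1) * ((a₂ : ℤ) + 1)
        = hilb f (a₁, a₂) + Module.finrank K (Im (fc (coords f)) (a₁ + 1 - d₁) (a₂ + 1 - d₂)) := by
      exact_mod_cast h2.symm
    have h4 : chi ((d₁ : ℤ), (d₂ : ℤ)) ((a₁ : ℤ), (a₂ : ℤ))
        = Pool.Agent.Helper37.chi d₁ d₂ a₁ a₂ := by
      unfold chi Pool.Agent.Helper37.chi dimR Pool.Agent.Helper37.dimR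
      simp
    rw [h4, ← h1, h3]
    ring

end Pool.Agent.Results.MP_75af91_ag.FrobergLundqvist
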